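import Pool.Agent.N837.LP.GenW

set_option autoImplicit false

/-!
# A positive proportion of the even numbers miss the first `A log n` primes of the window

For every `A ≥ 1` and `0 < η ≤ 1 / 2`, for every large `X` a positive proportion of the even `N = 2 n` in
`(X, X + X ^ η]` is such that `N - p` is composite (with a prime factor at most `X ^ (η δ)`) for each
prime `p`, `√N < p < N`, with at most `A log X` smaller primes in `(√N, ∞)`.
-/

namespace Pool.Agent.Results.MP_b58c63_nt.LateWindowPartitions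

open Classical in
theorem result (δ : ℝ) (hδ : 0 < δ) :
    ∃ C : ℝ, 0 < C ∧ ∀ A η : ℝ, 1 ≤ A → 0 < η → η ≤ 1 / 2 →
    ∃ X₀ : ℝ, ∀ X : ℝ, X₀ ≤ X →
    X ^ η * Real.exp (-Real.exp (C * A / η)) ≤
      (({N : ℕ | Even N ∧ X < N ∧ (N : ℝ) ≤ X + X ^ η ∧
        ∀ p : ℕ, p.Prime → Real.sqrt N < p → p < N →
          (((Finset.range p).filter
            (fun t : ℕ => t.Prime ∧ Real.sqrt N < t)).card : ℝ) ≤ A * Real.log X →
          ∃ q : ℕ, q.Prime ∧ (q : ℝ) ≤ X ^ (η * δ) ∧ q ∣ N - p ∧ q < N - p}).ncard : ℝ) := by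
  obtain ⟨C, hC, h⟩ := Pool.Agent.N837.LP.genFirst δ hδ
  refine ⟨2 * C, by positivity, fun A η hA hη hη1 => ?_⟩
  obtain ⟨X₀, hX₀⟩ := h (2 * A) η (by linarith) hη (by linarith)
  refine ⟨max X₀ 4, fun X hX => ?_⟩
  have hX4 : 4 ≤ X := (le_max_right _ _).trans hX
  have hX0 : 0 < X := by linarith
  have hL : 1 ≤ Real.log X := by
    rw [Real.le_log_iff_exp_le hX0]
    have := Real.exp_one_lt_d9
    linarith
  have hsq : X ^ η ≤ Real.sqrt X := by
    rw [Real.sqrt_eq_rpow]
    exact Real.rpow_le_rpow_of_exponent_le (by linarith) hη1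
  have h1 := hX₀ X ((le_max_left _ _).trans hX) (fun t : ℕ => t.Prime ∧ Real.sqrt X < t) 0
  have h2 : C * (2 * A) / η = 2 * C * A / η := by ring
  rw [h2] at h1
  refine h1.trans (Nat.cast_le.2 (Set.ncard_le_ncard ?_ ?_))
  · intro n hn
    obtain ⟨q1, q2, q3, q4⟩ := hn
    have hsn : Real.sqrt X ≤ Real.sqrt n := Real.sqrt_le_sqrt q1.le
    have hsn2 : Real.sqrt n ≤ Real.sqrt X + 1 / 2 := by
      apply Real.sqrt_le_iff.2
      refine ⟨by positivity, ?_⟩
      have e1 : (Real.sqrt X + 1 / 2) ^ 2 = X + Real.sqrt X + 1 / 4 := by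
        have := Real.sq_sqrt hX0.le
        nlinarith
      rw [e1]
      linarith
    refine ⟨?_, q1, q2, fun p hp hp2 hpn hc => ?_⟩
    · have e1 : (n : ℤ) % 2 = 0 := by simpa using q3
      have e2 : n % 2 = 0 := by omega
      exact Nat.even_iff.2 e2
    · apply q4 p ⟨hp, lt_of_le_of_lt hsn hp2⟩ hpn
      have e1 : ((Finset.range p).filter (fun t : ℕ => t.Prime ∧ Real.sqrt X < t)) ⊆
          ((Finset.range p).filter (fun t : ℕ => t.Prime ∧ Real.sqrt n < t)) ∪
            {⌊Real.sqrt X + 1 / 2⌋₊} := by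
        intro t ht
        rw [Finset.mem_filter] at ht
        rw [Finset.mem_union, Finset.mem_filter, Finset.mem_singleton]
        by_cases hcase : Real.sqrt n < t
        · left
          exact ⟨ht.1, ht.2.1, hcase⟩
        · right
          push Not at hcase
          symm
          rw [Nat.floor_eq_iff (by positivity)]
          constructor
          · linarith
          · linarith [ht.2.2]
      have e2 := (Finset.card_le_card e1).trans (Finset.card_union_le _ _)
      rw [Finset.card_singleton] at e2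
      have e3 : (((Finset.range p).filter (fun t : ℕ => t.Prime ∧ Real.sqrt X < t)).card : ℝ) ≤
          (((Finset.range p).filter (fun t : ℕ => t.Prime ∧ Real.sqrt n < t)).card : ℝ) + 1 := by
        exact_mod_cast e2
      have e4 : 1 ≤ A * Real.log X := by nlinarith
      have e5 : (((Finset.range p).filter (fun t : ℕ => t.Prime ∧ Real.sqrt X < t)).card : ℝ) ≤
          2 * A * Real.log X := by
        have e6 : (((Finset.range p).filter (fun t : ℕ => t.Prime ∧ Real.sqrt n < t)).card : ℝ) ≤
          A * Real.log X := by convert hc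
        linarith
      convert e5
  · apply (Set.finite_Iic ⌊X + X ^ η⌋₊).subset
    intro a ha
    obtain ⟨_, _, h2, _⟩ := ha
    rw [Set.mem_Iic]
    exact Nat.le_floor h2

end Pool.Agent.Results.MP_b58c63_nt.LateWindowPartitions
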