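import Pool.Agent.N671.DA.Win
import Pool.Agent.Results.MP_b58c63_nt.EveryNumberInWindows

/-!
# Goldbach with a prime in `(√N, 4 √N)` and a rough second summand, for all even numbers near functions of the denominators of
# good approximations

Let `α_1, …, α_m` be real numbers. We consider the natural numbers `q` with `‖q α_j - β_j‖ ≤ c q^(-τ)` for all `j`, `‖x‖` the
distance to the nearest integer; for `β = 0`, `c = 1`, `τ = 1 / m` these include the denominators of all best simultaneous
approximations (the denominators of the convergents for `m = 1`). They form a very sparse sequence, with gaps growing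
exponentially for almost all `α` if `τ = 1 / m`. Let `G` have steps bounded below by a positive constant and growth at most
`v^d`, for example `G(v) = a v^d`. Let `0 < u < 3 / 8` and `s > max (1 / 2) (4 u - 1 / 2)`. For all `α` in `ℝ^m` outside a set
of Hausdorff dimension at most `(m + d s + κ) / (1 + τ)`, and all `c`, for all but finitely many such `q` ALL even `N` with
`|N - G q| ≤ q^κ` have at least `δ 𝔖(N) √N / (log N) ^ 2` primes `p` in `(√N, 4 √N)` such that all prime factors of `N - p` are
larger than `N ^ u`. For `u = 1 / 3` the number `N - p` is a prime or a product of two primes. For `τ = 1 / m` the bound is less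
than `m` if `d s + κ < 1`; and so the statement holds for almost all `α`.

Proof. The `q` such that some exceptional `N` is near `G q` form a set with `O(X^(d s + κ + ε))` elements up to `X`, by the
starting theorem `RoughSummandShortPrime` of this problem; and the `α` with `‖q α_j - β_j‖ ≤ c q^(-τ)` for all `j` and
infinitely many `q` of such a set are covered by few small cubes (`Pool.Agent.N671.DA`, helper671).
-/

set_option autoImplicit false

namespace Pool.Agent.Results.MP_b58c63_nt.SimultaneousApproximations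

open Pool.Agent.N671.DA (Solves Expanding expanding_pow approx_win_nat)
open Pool.Agent.Results.MP_b58c63_nt.EveryNumberInWindows (sing shortCount Exc count)

/-- **A rough second summand near the denominators of good approximations.** Let `0 < u < 3 / 8` and
`s > max (1 / 2) (4 u - 1 / 2)`. There is `δ > 0` such that the following holds. Let `G` have steps `≥ a > 0` and growth at
most `v^d`. Let `0 ≤ κ ≤ 1`, `β` in `ℝ^m` and `τ > 0`. For all `α` in `ℝ^m` outside a set of Hausdorff dimension at most
`(m + d s + κ) / (1 + τ)` and all `c`, for all large `q` with `‖q α_j - β_j‖ ≤ c q^(-τ)` for all `j`, ALL even `N ≥ 1` with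
`|N - G q| ≤ q^κ` have at least `δ 𝔖(N) √N / (log N) ^ 2` primes `p` with `√N < p < 4 √N` such that `N - p ≥ 2` and all prime
factors of `N - p` are larger than `N ^ u`. The functions `a v^d` with `a > 0`, `d ≥ 1` are examples of `G`. -/
theorem result :
    (∀ u s : ℝ, 0 < u → u < 3 / 8 → max (1 / 2) (4 * u - 1 / 2) < s → ∃ δ : ℝ, 0 < δ ∧
      ∀ (G : ℕ → ℝ) (d : ℝ), Expanding G d → ∀ κ : ℝ, 0 ≤ κ → κ ≤ 1 →
      ∀ (m : ℕ) (β : Fin m → ℝ) (τ : ℝ), 0 < τ →
      ∃ E : Set (Fin m → ℝ), dimH E ≤ ENNReal.ofReal ((m + (d * s + κ)) / (1 + τ)) ∧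
        ∀ α, α ∉ E → ∀ c : ℝ, ∃ Q : ℕ, ∀ q : ℕ, Q ≤ q → Solves α β q (c * (q : ℝ) ^ (-τ)) →
          ∀ n : ℕ, 1 ≤ n → Even n → |(n : ℝ) - G q| ≤ (q : ℝ) ^ κ →
            δ * sing n * (Real.sqrt n / Real.log n ^ 2) ≤ (shortCount u n : ℝ)) ∧
    ∀ a d : ℝ, 0 < a → 1 ≤ d → Expanding (fun v => a * (v : ℝ) ^ d) d := by
  refine ⟨fun u s hu hu1 hs => ?_, fun a d ha hd => expanding_pow ha hd⟩
  obtain ⟨δ, hδ, hcount⟩ := count u s hu hu1 hs
  refine ⟨δ, hδ, fun G d hG κ hκ hκ1 m β τ hτ => ?_⟩
  have hs0 : 0 ≤ s := by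
    have := le_max_left (1 / 2 : ℝ) (4 * u - 1 / 2)
    linarith
  obtain ⟨E, hE, hE2⟩ := approx_win_nat (Exc u δ) hG (s := s) (κ := κ) hs0 hκ hκ1 hcount β hτ
  refine ⟨E, hE, fun α hα c => ?_⟩
  obtain ⟨Q, hQ⟩ := hE2 α hα c
  refine ⟨Q, fun q hq h1 n hn hne h2 => ?_⟩
  by_contra hcon
  rw [not_le] at hcon
  exact hQ q hq h1 n (Or.inr ⟨hne, hcon⟩) h2

end Pool.Agent.Results.MP_b58c63_nt.SimultaneousApproximations
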