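import Mathlib
import Pool.Agent.N893.SM.Small3
import Pool.Agent.N740.HK.Lim

/-!
# Goldbach representations with a small summand, in all sieved sequential random models

The integers are decided one after the other; the multiples of the primes of a finite set `Q` are
never chosen and the conditional probability of choosing an integer `n + 1` which is not such a
multiple, given the decisions up to `n`, is asymptotic to `∏_{p ∈ Q} (1 - 1 / p)⁻¹ / log n`, almost
surely.  No independence and no rate of convergence are assumed.  In every such model, almost surely, the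
number of the representations `n = p + q` by chosen integers with `p ≤ y` is `(1 + o(1)) 𝔖 y / (log n log y)`,
uniformly for `y / (log² n log log n) → ∞`, `y < n / 2`; every large `n` has a representation with
`p ≤ (2 + o(1)) log² n log log n / 𝔖` (unless `𝔖 = 0`), and one with `√n < p < 4 √n`.

Method (`Pool/Agent/N893/SM`): the two members of the pairs are replaced one after the other by their
probabilities; the error of one replacement is controlled by the exponential supermartingale
`exp (θ ∑ w I - (e ^ θ - 1) ∑ w P)`, with a fixed small `θ`, and with a large negative `θ` for the least summand.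

The notion of a sequential model and the theorem on Hawkins' sieve are from the team files by helper528
(`Pool/Agent/R528/RM`) and helper740 (`Pool/Agent/N740/HK`).
-/

set_option autoImplicit false

open MeasureTheory Filter Set
open scoped Topology

namespace Pool.Agent.Results.MP_b58c63_nt.SmallSummand

variable {Ω : Type}

/-- `A n` is the event that `n` is chosen; adapted to `ℱ`; multiples of the primes in `Q` are not
chosen; the conditional probability of `A (n + 1)` given `ℱ n`, times `log n`, tends almost surely to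
`∏_{p ∈ Q} (1 - 1 / p)⁻¹` along the `n` such that no `p ∈ Q` divides `n + 1` -/
def SievedModel [m : MeasurableSpace Ω] (μ : Measure Ω) (ℱ : Filtration ℕ m) (A : ℕ → Set Ω)
    (Q : Finset ℕ) : Prop :=
  (∀ n, MeasurableSet[ℱ n] (A n)) ∧ (∀ n, (∃ p ∈ Q, p ∣ n) → A n = ∅) ∧
  ∀ᵐ ω ∂μ, Tendsto (fun n : ℕ => (μ[(A (n + 1)).indicator (fun _ => (1 : ℝ)) | ℱ n]) ω * Real.log n)
    (atTop ⊓ 𝓟 {n : ℕ | ∀ p ∈ Q, ¬ p ∣ n + 1}) (𝓝 (∏ p ∈ Q, (1 - 1 / (p : ℝ))⁻¹))

open Classical in
/-- The random sieve of Hawkins: `2` is chosen, and given the decisions up to `n ≥ 2` the number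
`n + 1` is chosen with probability `∏ (1 - 1 / h)`, the product over the chosen `2 ≤ h ≤ n`. -/
def HawkinsSieve [m : MeasurableSpace Ω] (μ : Measure Ω) (ℱ : Filtration ℕ m) (A : ℕ → Set Ω) : Prop :=
  (∀ n, MeasurableSet[ℱ n] (A n)) ∧ A 2 = univ ∧
  ∀ n, 2 ≤ n → μ[(A (n + 1)).indicator (fun _ => (1 : ℝ)) | ℱ n] =ᵐ[μ]
    fun ω => ∏ h ∈ Finset.Icc 2 n, if ω ∈ A h then 1 - 1 / (h : ℝ) else 1

/-- the number of the `1 ≤ p ≤ y` such that `p` and `n - p` are chosen -/
noncomputable def reps (A : ℕ → Set Ω) (ω : Ω) (n y : ℕ) : ℕ :=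
  {p : ℕ | 1 ≤ p ∧ p ≤ y ∧ ω ∈ A p ∧ ω ∈ A (n - p)}.ncard

/-- the singular series -/
noncomputable def sing (Q : Finset ℕ) (n : ℕ) : ℝ :=
  ∏ p ∈ Q, (1 - (if p ∣ n then 1 else 2 : ℝ) / p) / (1 - 1 / (p : ℝ)) ^ 2

open Pool.Agent.R528.RM Pool.Agent.N893.SM

lemma reps_eq (A : ℕ → Set Ω) (ω : Ω) (n y : ℕ) : (reps A ω n y : ℝ) = RS A n y ω := by
  classical
  have h1 : {p : ℕ | 1 ≤ p ∧ p ≤ y ∧ ω ∈ A p ∧ ω ∈ A (n - p)} =
      (((Finset.range y).filter (fun i => ω ∈ A (i + 1) ∧ ω ∈ A (n - 1 - i))).image (fun i => i + 1) : Finset ℕ) := by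
    ext p
    simp only [Set.mem_setOf_eq, Finset.coe_image, Finset.coe_filter, Finset.mem_range, Set.mem_image]
    constructor
    · rintro ⟨h1, h2, h3, h4⟩
      refine ⟨p - 1, ⟨by omega, ?_, ?_⟩, by omega⟩
      · rwa [show p - 1 + 1 = p by omega]
      · rwa [show n - 1 - (p - 1) = n - p by omega]
    · rintro ⟨i, ⟨h1, h2, h3⟩, rfl⟩
      refine ⟨by omega, by omega, h2, ?_⟩
      rwa [show n - (i + 1) = n - 1 - i by omega]
  unfold reps RS
  rw [h1, Set.ncard_coe_finset, Finset.card_image_of_injOn]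
  · rw [Finset.card_filter]
    push_cast
    refine Finset.sum_congr rfl fun i _ => ?_
    unfold In
    by_cases ha : ω ∈ A (i + 1)
    · by_cases hb : ω ∈ A (n - 1 - i)
      · rw [if_pos ⟨ha, hb⟩, indicator_of_mem ha, indicator_of_mem hb, one_mul]
      · rw [if_neg (fun h => hb h.2), indicator_of_notMem hb, mul_zero]
    · rw [if_neg (fun h => ha h.1), indicator_of_notMem ha, zero_mul]
  · intro i hi j hj h
    simp only at h
    omega

end Pool.Agent.Results.MP_b58c63_nt.SmallSummand

open Pool.Agent.Results.MP_b58c63_nt.SmallSummand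
open Pool.Agent.R528.RM Pool.Agent.N893.SM

/-- Hawkins' sieve is a sieved model with `Q = ∅`; and in every sieved model, almost surely: (1) for every
`ε > 0` there is `K` such that for all large `n` and all `y < n / 2` with `y / log y ≥ K log² n` the number of
the `p ≤ y` such that `p` and `n - p` are chosen is `(1 ± ε) 𝔖(n) y / (log n log y)`; (2) for every `δ > 0` all
large `n` with `𝔖(n) ≠ 0` are sums of chosen `p < q` with `p ≤ (2 + δ) log² n log log n / 𝔖(n)`; (3) all large
even `n`, and all large `n` if `2 ∉ Q`, are sums of chosen `p ≠ q` with `√n < p < 4 √n`. -/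
theorem Pool.Agent.Results.MP_b58c63_nt.SmallSummand.result
    {Ω : Type} [m : MeasurableSpace Ω] (μ : Measure Ω) [IsProbabilityMeasure μ]
    (ℱ : Filtration ℕ m) (A : ℕ → Set Ω) :
    (HawkinsSieve μ ℱ A → SievedModel μ ℱ A ∅) ∧
    (∀ Q : Finset ℕ, (∀ p ∈ Q, p.Prime) → SievedModel μ ℱ A Q → ∀ᵐ ω ∂μ,
      (∀ ε : ℝ, 0 < ε → ∃ K : ℝ, 0 < K ∧ ∀ᶠ n : ℕ in atTop, ∀ y : ℕ,
        K * Real.log n ^ 2 ≤ y / Real.log y → 2 * y + 1 ≤ n →
        |(reps A ω n y : ℝ) - sing Q n * (y / (Real.log n * Real.log y))| ≤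
          ε * (sing Q n * (y / (Real.log n * Real.log y)))) ∧
      (∀ δ : ℝ, 0 < δ → ∀ᶠ n : ℕ in atTop, sing Q n ≠ 0 → ∃ p q : ℕ, p + q = n ∧ p < q ∧
        (p : ℝ) ≤ (2 + δ) * (Real.log n ^ 2 * Real.log (Real.log n) / sing Q n) ∧ ω ∈ A p ∧ ω ∈ A q) ∧
      (∀ᶠ n : ℕ in atTop, (2 ∣ n ∨ 2 ∉ Q) → ∃ p q : ℕ, p + q = n ∧ p ≠ q ∧
        √(n : ℝ) < p ∧ (p : ℝ) < 4 * √(n : ℝ) ∧ ω ∈ A p ∧ ω ∈ A q)) := by
  classical
  constructor
  · rintro ⟨h1, h2, h3⟩
    have hs : Pool.Agent.N740.HK.HS μ ℱ A := ⟨h1, h2, fun n hn => by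
      filter_upwards [h3 n hn] with ω hω
      have e : (∏ h ∈ Finset.Icc 2 n, if ω ∈ A h then 1 - 1 / (h : ℝ) else 1) =
          (Pool.Agent.N740.HK.Y A n ω)⁻¹ := by
        unfold Pool.Agent.N740.HK.Y
        rw [← Finset.prod_inv_distrib]
        refine Finset.prod_congr rfl fun h hh => ?_
        have h2 : (2 : ℝ) ≤ h := by exact_mod_cast (Finset.mem_Icc.1 hh).1
        by_cases hA : ω ∈ A h
        · rw [if_pos hA, if_pos hA, inv_div]
          field_simp
        · rw [if_neg hA, if_neg hA, inv_one]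
      rw [← e]
      exact hω⟩
    refine ⟨h1, fun n hn => ?_, ?_⟩
    · obtain ⟨p, hp, _⟩ := hn
      exact absurd hp (Finset.notMem_empty p)
    · filter_upwards [Pool.Agent.N740.HK.hawk_dens hs] with ω hω
      rw [Finset.prod_empty]
      exact hω.mono_left inf_le_left
  · rintro Q hQ ⟨hA, hcop, hd⟩
    filter_upwards [smallSummand (μ := μ) hA Q hQ hcop (profile (μ := μ) hA Q hQ hcop hd)] with ω hω
    have hsing : ∀ n, sing Q n = singQ Q n := fun n => rfl
    obtain ⟨h1, h2⟩ := hω
    refine ⟨?_, ?_, ?_⟩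
    · intro ε hε
      obtain ⟨K, hK, h⟩ := h1 ε hε
      refine ⟨K, hK, ?_⟩
      filter_upwards [h] with n hn y hKy hy
      rw [reps_eq A ω, hsing]
      exact hn y hKy hy
    · intro δ hδ
      filter_upwards [h2 δ hδ] with n hn hs
      rw [hsing] at hs ⊢
      obtain ⟨i, hi1, hi2, ha, hb'⟩ := hn hs
      refine ⟨i + 1, n - 1 - i, by omega, by omega, ?_, ha, hb'⟩
      push_cast
      exact hi2
    · obtain ⟨K, hK, h⟩ := h1 (1 / 8) (by norm_num)
      have hsq : Tendsto (fun n : ℕ => √(n : ℝ)) atTop atTop :=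
        Real.tendsto_sqrt_atTop.comp tendsto_natCast_atTop_atTop
      have hlog : ∀ᶠ n : ℕ in atTop, K * Real.log n ^ 3 ≤ √(n : ℝ) := by
        have e1 := (Real.isLittleO_pow_log_id_atTop (n := 3)).bound (show 0 < 1 / (8 * K) by positivity)
        filter_upwards [hsq.eventually e1, eventually_ge_atTop 1] with n h3 h4
        have hn1 : (1 : ℝ) ≤ n := by exact_mod_cast h4
        have hs1 : 1 ≤ √(n : ℝ) := Real.one_le_sqrt.2 hn1
        have hl : Real.log √(n : ℝ) = Real.log n / 2 := Real.log_sqrt (by linarith)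
        rw [Real.norm_eq_abs, Real.norm_eq_abs, abs_of_nonneg (pow_nonneg (Real.log_nonneg hs1) 3), hl] at h3
        simp only [id] at h3
        rw [abs_of_nonneg (by linarith)] at h3
        have e2 : (Real.log (n : ℝ) / 2) ^ 3 = Real.log n ^ 3 / 8 := by ring
        rw [e2] at h3
        calc K * Real.log n ^ 3 = 8 * K * (Real.log n ^ 3 / 8) := by ring
          _ ≤ 8 * K * (1 / (8 * K) * √(n : ℝ)) := mul_le_mul_of_nonneg_left h3 (by positivity)
          _ = √(n : ℝ) := by field_simp
      filter_upwards [h, hlog, hsq.eventually_ge_atTop (100 : ℝ), eventually_ge_atTop 10000] with n hn hl h100 hnn hs'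
      have hs : singQ Q n ≠ 0 := by
        intro h0
        obtain ⟨h3, h4⟩ := singQ_zero hQ h0
        rcases hs' with h5 | h5
        · exact h4 h5
        · exact h5 h3
      have hs0 : 0 < singQ Q n := lt_of_le_of_ne (singQ_bounds Q hQ n).1 (Ne.symm hs)
      set S := √(n : ℝ) with hS
      have hn0 : (10000 : ℝ) ≤ n := by exact_mod_cast hnn
      have hSS : S * S = n := Real.mul_self_sqrt (by linarith)
      set y := ⌊S⌋₊ with hy
      set y' := ⌈4 * S⌉₊ - 1 with hy'
      have hy1 : (y : ℝ) ≤ S := Nat.floor_le (by linarith)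
      have hy2 : S < y + 1 := Nat.lt_floor_add_one _
      have hc0 : 1 ≤ ⌈4 * S⌉₊ := Nat.one_le_ceil_iff.2 (by linarith)
      have hc1 : 4 * S ≤ (⌈4 * S⌉₊ : ℝ) := Nat.le_ceil _
      have hc2 : (⌈4 * S⌉₊ : ℝ) < 4 * S + 1 := Nat.ceil_lt_add_one (by linarith)
      have hy'r : (y' : ℝ) = (⌈4 * S⌉₊ : ℝ) - 1 := by
        rw [hy', Nat.cast_sub hc0]
        norm_num
      have hy'1 : (y' : ℝ) < 4 * S := by linarith
      have hy'2 : 4 * S - 1 ≤ y' := by linarith
      have hyy' : y ≤ y' := by
        have : (y : ℝ) ≤ y' := by linarith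
        exact_mod_cast this
      have hy'n : 2 * y' + 1 ≤ n := by
        have : ((2 * y' + 1 : ℕ) : ℝ) ≤ n := by
          push_cast
          nlinarith
        exact_mod_cast this
      have hL : 0 < Real.log (n : ℝ) := Real.log_pos (by linarith)
      have hly : 0 < Real.log (y : ℝ) := Real.log_pos (by linarith)
      have hly' : 0 < Real.log (y' : ℝ) := Real.log_pos (by linarith)
      have hlyn : Real.log (y : ℝ) ≤ Real.log n / 2 := by
        rw [← Real.log_sqrt (by linarith : (0 : ℝ) ≤ n)]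
        exact Real.log_le_log (by linarith) hy1
      have hly'y : Real.log (y' : ℝ) ≤ 2 * Real.log y := by
        rw [show 2 * Real.log (y : ℝ) = Real.log ((y : ℝ) ^ 2) by rw [Real.log_pow]; norm_num]
        refine Real.log_le_log (by linarith) ?_
        nlinarith
      have hK1 : K * Real.log n ^ 2 ≤ y / Real.log y := by
        rw [le_div_iff₀ hly]
        have e1 : K * Real.log n ^ 2 * Real.log y ≤ K * Real.log n ^ 2 * (Real.log n / 2) :=
          mul_le_mul_of_nonneg_left hlyn (by positivity)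
        have e2 : K * Real.log n ^ 2 * (Real.log n / 2) = K * Real.log n ^ 3 / 2 := by ring
        rw [e2] at e1
        linarith
      have hratio : 3 / 2 * (y / Real.log y) ≤ y' / Real.log y' := by
        have e1 : (3 * y : ℝ) / (2 * Real.log y) ≤ y' / Real.log y' :=
          div_le_div₀ (by linarith) (by linarith) hly' hly'y
        calc 3 / 2 * (y / Real.log y) = (3 * y : ℝ) / (2 * Real.log y) := by field_simp
          _ ≤ _ := e1
      have hyL0 : 0 < (y : ℝ) / Real.log y := div_pos (by linarith) hly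
      have hK2 : K * Real.log n ^ 2 ≤ y' / Real.log y' := by linarith
      have g1 := abs_le.1 (hn y hK1 (by omega))
      have g2 := abs_le.1 (hn y' hK2 hy'n)
      have f : ∀ z : ℝ, singQ Q n * (z / (Real.log n * Real.log z)) = singQ Q n / Real.log n * (z / Real.log z) := by
        intro z
        ring
      rw [f] at g1 g2
      have hP : 0 < singQ Q n / Real.log n := div_pos hs0 hL
      have f1 := mul_le_mul_of_nonneg_left hratio hP.le
      have f2 : 0 < singQ Q n / Real.log n * (y / Real.log y) := mul_pos hP hyL0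
      have hlt : RS A n y ω < RS A n y' ω := by nlinarith [g1.2, g2.1]
      have hex : ∃ i, y ≤ i ∧ i < y' ∧ In A (i + 1) ω * In A (n - 1 - i) ω ≠ 0 := by
        by_contra hcon
        push Not at hcon
        have : RS A n y' ω = RS A n y ω := by
          unfold RS
          rw [← Finset.sum_range_add_sum_Ico _ hyy', Finset.sum_eq_zero (s := Finset.Ico y y') (fun i hi => by
            rw [Finset.mem_Ico] at hi
            exact hcon i hi.1 hi.2), add_zero]
        linarith
      obtain ⟨i, hi1, hi2, hi3⟩ := hex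
      have hInA : ∀ v, In A v ω ≠ 0 → ω ∈ A v := by
        intro v hv
        by_contra hcon
        exact hv (indicator_of_notMem hcon _)
      refine ⟨i + 1, n - 1 - i, by omega, by omega, ?_, ?_, hInA _ (left_ne_zero_of_mul hi3), hInA _ (right_ne_zero_of_mul hi3)⟩
      · have : (y : ℝ) ≤ i := by exact_mod_cast hi1
        push_cast
        linarith
      · have : ((i + 1 : ℕ) : ℝ) ≤ y' := by exact_mod_cast hi2
        linarith
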